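import Mathlib

set_option autoImplicit false

namespace Pool.Agent.Results.MP_0f9677_co.Clique

open Finset SimpleGraph

variable {n : ℕ}

/-- average degrees of the nonempty subgraphs -/
def avs (G : SimpleGraph (Fin n)) : Set ℝ :=
  {d | ∃ H : G.Subgraph, H.verts.Nonempty ∧ d = 2 * H.edgeSet.ncard / H.verts.ncard}

/-- maximum average degree -/
noncomputable def Mad (G : SimpleGraph (Fin n)) : ℝ := sSup (avs G)

/-- a clique on `x` vertices plus isolated vertices -/
def Gx (n x : ℕ) : SimpleGraph (Fin n) := fromRel fun u v => u < x ∧ v < x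

noncomputable def g (n x : ℝ) : ℝ := (x - 1) * (n * (n - 1) - x * (x - 1)) / n

theorem key (n a b p q : ℝ) (M : ℝ) (a1 : 1 ≤ a) (ab : a ≤ b) (bn : b ≤ n) (p0 : 0 ≤ p)
    (q0 : 0 ≤ q) (pa : p ≤ a * (a - 1)) (qb : q ≤ b * (b - 1))
    (s : n ≤ a + b → p + q ≤ n * (n - 1) - 2 * (n - a) * (n - b)) (ga : g n a ≤ M)
    (L : 3 / 8 * (n - 1) ^ 2 - (n - 1) / 8 ≤ M) (n3 : 3 ≤ n)
    (B : 4 ≤ n ∨ n = 3 ∧ (a ≤ 2 ∨ 3 ≤ a)) : p / a * (q / b) ≤ M := by
  have a0 : 0 < a := by linarith
  have b0 : 0 < b := by linarith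
  have n0 : 0 < n := by linarith
  have u : 0 ≤ p / a := by positivity
  rcases le_total n (a + b) with h | h
  · have s := s h
    obtain ⟨c, hc⟩ : ∃ c, c = n * (n - 1) - 2 * n * (n - a) - p := ⟨_, rfl⟩
    have v : q / b ≤ c / b + 2 * (n - a) := by
      rw [div_add' _ _ _ b0.ne', div_le_div_iff_of_pos_right b0]; nlinarith
    rcases le_total 0 c with k | k
    · have v : q / b ≤ c / a + 2 * (n - a) := v.trans (by gcongr)
      have w : p / a + (c / a + 2 * (n - a)) = 2 * n - a - n * (n + 1) / (2 * a) +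
          (2 * n - a - n * (n + 1) / (2 * a)) := by rw [hc]; field_simp; ring
      have z : 7 / 5 * n + 69 / 100 - a ≤ n * (n + 1) / (2 * a) := by
        rw [le_div_iff₀ (by positivity)]; nlinarith [sq_nonneg (a - 7 / 10 * n - 69 / 200)]
      have : 0 ≤ q / b := by positivity
      have : p / a + q / b ≤ 2 * (3 / 5 * n - 69 / 100) := by linarith
      nlinarith [sq_nonneg (p / a - q / b), mul_self_le_mul_self (by positivity) this]
    · have v : q / b ≤ (n * (n - 1) - p) / n := v.trans (by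
        rw [div_add' _ _ _ b0.ne', div_le_div_iff₀ b0 n0]; nlinarith)
      refine (mul_le_mul_of_nonneg_left v u).trans ?_
      rw [div_mul_div_comm, div_le_iff₀ (by positivity)]
      rcases le_or_gt (2 * a * (a - 1)) (n * (n - 1)) with j | j
      · rw [g, div_le_iff₀ n0] at ga
        nlinarith [mul_nonneg (sub_nonneg.2 pa) (show 0 ≤ n * (n - 1) - p - a * (a - 1) by
          linarith)]
      · have B : 2 * n * (n - 1) ≤ a * (3 * n - 4) := by
          rcases B with B | ⟨rfl, B | B⟩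
          · by_contra! r
            nlinarith [mul_pos (sub_pos.2 r) (show 0 < 2 * n * (n - 1) + a * (3 * n - 4) -
              (3 * n - 4) by nlinarith), mul_lt_mul_of_pos_left j (show 0 < (3 * n - 4) ^ 2 by
              nlinarith), mul_nonneg (mul_nonneg n0.le (sub_nonneg.2 B)) (show 0 ≤ n * (n - 1) by
              nlinarith)]
          · nlinarith
          · linarith
        have : n * (n - 1) ^ 2 ≤ 4 * a * M := by
          nlinarith [mul_le_mul_of_nonneg_left L a0.le,
            mul_le_mul_of_nonneg_left B (show 0 ≤ n - 1 by linarith)]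
        nlinarith [sq_nonneg (n * (n - 1) - 2 * p)]
  · have x : p / a ≤ a - 1 := by rw [div_le_iff₀ a0]; linarith
    have y : q / b ≤ b - 1 := by rw [div_le_iff₀ b0]; linarith
    have := mul_le_mul x y (by positivity) (by linarith)
    nlinarith [sq_nonneg (a - b), mul_self_le_mul_self (by linarith) h]

open Classical in
noncomputable def D {G : SimpleGraph (Fin n)} (H : G.Subgraph) : Finset (Fin n × Fin n) :=
  univ.filter fun p => H.Adj p.1 p.2

theorem Dc {G : SimpleGraph (Fin n)} (H : G.Subgraph) : 2 * H.edgeSet.ncard = #(D H) := by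
  classical
  rw [← H.edgeSet_spanningCoe, Set.ncard_eq_toFinset_card', ← edgeFinset, two_mul_card_edgeFinset]
  congr 1

theorem Dm {G : SimpleGraph (Fin n)} {H : G.Subgraph} {p : Fin n × Fin n} :
    p ∈ D H ↔ H.Adj p.1 p.2 := by simp [D]

theorem oc (A : Finset (Fin n)) : (#A.offDiag : ℝ) = #A * (#A - 1) := by
  rw [offDiag_card, Nat.cast_sub (Nat.le_mul_self _)]; push_cast; ring

theorem Ds {G : SimpleGraph (Fin n)} (H : G.Subgraph) : D H ⊆ H.verts.toFinite.toFinset.offDiag :=
  fun p h => by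
    have h := Dm.1 h
    simpa using ⟨H.edge_vert h, H.edge_vert h.symm, h.ne⟩

theorem up (G G' : SimpleGraph (Fin n)) (c : ∀ u v, G.Adj u v → G'.Adj u v → False) (M : ℝ)
    (h : ∀ x : ℕ, 1 ≤ x → x ≤ n → g n x ≤ M) : ∀ d ∈ avs G, ∀ e ∈ avs G', d * e ≤ M := by
  rintro _ ⟨H, h1, rfl⟩ _ ⟨K, k1, rfl⟩
  wlog w : H.verts.ncard ≤ K.verts.ncard generalizing G G' with r
  · rw [mul_comm]
    exact r _ _ (fun u v a b => c u v b a) K k1 H h1 (by omega)
  have p := Dc H
  have q := Dc K
  rw [Set.ncard_eq_toFinset_card _ H.verts.toFinite, Set.ncard_eq_toFinset_card _ K.verts.toFinite]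
    at *
  have a1 := card_pos.2 ((Set.Finite.toFinset_nonempty H.verts.toFinite).2 h1)
  have hA := Ds H
  have hB := Ds K
  generalize H.verts.toFinite.toFinset = A at *
  generalize K.verts.toFinite.toFinset = B at *
  have bn : #B ≤ n := by simpa using card_le_univ B
  have i : #A + #B ≤ n + #(A ∩ B) := by
    have := card_le_univ (A ∪ B)
    rw [← card_union_add_card_inter]; simpa using this
  have j := card_le_card (union_subset_union hA hB)
  rw [card_union_of_disjoint (disjoint_left.2 fun p a b =>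
    c _ _ (H.adj_sub (Dm.1 a)) (K.adj_sub (Dm.1 b)))] at j
  have k := card_union_add_card_inter A.offDiag B.offDiag
  rw [← offDiag_inter] at k
  have pa := card_le_card hA
  have qb := card_le_card hB
  rw [← p, ← q] at *
  have z : (0 : ℝ) ≤ M := by simpa [g] using h 1 le_rfl (by omega)
  rcases lt_or_ge n 3 with n3 | n3
  · have : H.edgeSet.ncard = 0 ∨ K.edgeSet.ncard = 0 := by
      have := card_le_card (inter_subset_left (s₁ := A) (s₂ := B))
      rw [offDiag_card, offDiag_card, offDiag_card] at k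
      rw [offDiag_card] at pa
      generalize #A = a at *
      generalize #B = b at *
      generalize #(A ∩ B) = c at *
      have : b ≤ 2 := by omega
      interval_cases b <;> interval_cases a <;> interval_cases c <;> omega
    rcases this with e | e <;> simpa [e]
  refine key n _ _ _ _ M (by exact_mod_cast a1) (by exact_mod_cast w) (by exact_mod_cast bn)
    (by positivity) (by positivity) (by rw [← oc]; exact_mod_cast pa)
    (by rw [← oc]; exact_mod_cast qb) (fun s => ?_) (h _ a1 (by omega)) ?_ (by exact_mod_cast n3)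
    (by norm_cast; omega)
  · have k : ((#(A.offDiag ∪ B.offDiag) : ℝ) + #(A ∩ B).offDiag) = #A.offDiag + #B.offDiag := by
      exact_mod_cast k
    rw [oc, oc, oc] at k
    have j : (2 * H.edgeSet.ncard + 2 * K.edgeSet.ncard : ℝ) ≤ #(A.offDiag ∪ B.offDiag) := by
      exact_mod_cast j
    have : (0 : ℤ) ≤ (#(A ∩ B) - (#A + #B - n)) * (#(A ∩ B) + (#A + #B - n) - 1) := by
      have s : n ≤ #A + #B := by exact_mod_cast s
      rcases (by omega : (#(A ∩ B) - (#A + #B - n) : ℤ) = 0 ∨
        0 ≤ (#(A ∩ B) + (#A + #B - n) - 1 : ℤ)) with e | e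
      · simp [e]
      · exact mul_nonneg (by omega) e
    have : (0 : ℝ) ≤ (#(A ∩ B) - (#A + #B - n)) * (#(A ∩ B) + (#A + #B - n) - 1) := by
      exact_mod_cast this
    nlinarith
  · refine le_trans ?_ (h (n / 2 + 1) (by omega) (by omega))
    rw [g, le_div_iff₀ (by positivity)]
    obtain ⟨m, rfl | rfl⟩ := n.even_or_odd'
    · have : (2 : ℝ) ≤ m := by norm_cast; omega
      rw [show 2 * m / 2 = m by omega]; push_cast; nlinarith
    · rw [show (2 * m + 1) / 2 = m by omega]; push_cast; nlinarith [m.cast_nonneg (α := ℝ)]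

theorem bd (G : SimpleGraph (Fin n)) : BddAbove (avs G) :=
  ((Set.finite_range fun H : G.Subgraph => (2 * H.edgeSet.ncard / H.verts.ncard : ℝ)).subset
    (by rintro _ ⟨H, _, rfl⟩; exact ⟨H, rfl⟩)).bddAbove

theorem mem (h : 1 ≤ n) (G : SimpleGraph (Fin n)) : Mad G ∈ avs G :=
  Set.Nonempty.csSup_mem ⟨_, ⊤, ⟨⟨0, h⟩, trivial⟩, rfl⟩
    ((Set.finite_range fun H : G.Subgraph => (2 * H.edgeSet.ncard / H.verts.ncard : ℝ)).subset
      fun _ ⟨H, _, e⟩ => ⟨H, e.symm⟩)

theorem lo (x : ℕ) (h : 1 ≤ x) (k : x ≤ n) : g n x ≤ Mad (Gx n x) * Mad (Gx n x)ᶜ := by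
  let A : Finset (Fin n) := univ.filter (· < x)
  have a : #A = x := by rw [Fin.card_filter_val_lt]; omega
  have x0 : (0 : ℝ) < x := by positivity
  have u : (x - 1 : ℝ) ≤ Mad (Gx n x) := le_csSup (bd _) ⟨(⊤ : (Gx n x).Subgraph).induce A,
    card_pos.1 (by omega), by
      have := Dc ((⊤ : (Gx n x).Subgraph).induce A)
      rw [show D _ = A.offDiag by
        ext p; rw [Dm, Subgraph.induce_adj, Subgraph.top_adj]; simp [A, Gx]; tauto] at this
      have := (congrArg (Nat.cast (R := ℝ)) this).trans (oc A)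
      push_cast at this
      rw [this, Subgraph.induce_verts, Set.ncard_coe_finset, a]; field_simp⟩
  have v : (n * (n - 1) - x * (x - 1) : ℝ) / n ≤ Mad (Gx n x)ᶜ := le_csSup (bd _) ⟨⊤,
    ⟨⟨0, by omega⟩, trivial⟩, by
      have := Dc (⊤ : (Gx n x)ᶜ.Subgraph)
      rw [show D _ = univ.offDiag \ A.offDiag by
        ext p; rw [Dm, Subgraph.top_adj]; by_cases p.1 = p.2 <;> simp [A, Gx, *]; omega] at this
      have := (congrArg (Nat.cast (R := ℝ)) this).trans
        (cast_card_sdiff (offDiag_mono (subset_univ A)))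
      push_cast at this
      rw [this, oc, oc, a]; simp⟩
  have : (1 : ℝ) ≤ x := by exact_mod_cast h
  have : (x : ℝ) ≤ n := by exact_mod_cast k
  rw [g, mul_div_assoc]
  exact mul_le_mul u v (div_nonneg (by nlinarith) (by positivity)) (by linarith)

theorem result (n : ℕ) (h : 1 ≤ n) : ∃ x : ℕ, 1 ≤ x ∧ x ≤ n ∧
    IsGreatest {z | ∃ G : SimpleGraph (Fin n), z = Mad G * Mad Gᶜ}
      (Mad (Gx n x) * Mad (Gx n x)ᶜ) ∧
    Mad (Gx n x) * Mad (Gx n x)ᶜ = (x - 1) * (n * (n - 1) - x * (x - 1)) / n ∧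
    ∀ y : ℕ, 1 ≤ y → y ≤ n → ((y : ℝ) - 1) * (n * (n - 1) - y * (y - 1)) / n ≤
      (x - 1) * (n * (n - 1) - x * (x - 1)) / n := by
  obtain ⟨x, p, q⟩ := (Icc 1 n).exists_max_image (fun x : ℕ => g n x) ⟨1, by simpa⟩
  rw [mem_Icc] at p
  have q := fun y a b => q y (mem_Icc.2 ⟨a, b⟩)
  have u := fun G => up G Gᶜ (fun _ _ a b => b.2 a) _ q _ (mem h G) _ (mem h Gᶜ)
  exact ⟨x, p.1, p.2, ⟨⟨_, rfl⟩, fun _ ⟨G, e⟩ => e ▸ (u G).trans (lo x p.1 p.2)⟩,
    (u _).antisymm (lo x p.1 p.2), q⟩

end Pool.Agent.Results.MP_0f9677_co.Clique
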